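import Pool.Agent.Lib.Pbbea99T.D5.Data

/-!
# MP_bbea99_co: closure of the templates
-/

namespace MPbbea99T.D5

open MPbbea99T

theorem tc5 : allL (chkT P) t5 = true := by decide +kernel

theorem tc6 : allL (chkT P) t6 = true := by decide +kernel

theorem tc7 : allL (chkT P) t7 = true := by decide +kernel

theorem tc8 : allL (chkT P) t8 = true := by decide +kernel

theorem tc9 : allL (chkT P) t9 = true := by decide +kernel

end MPbbea99T.D5
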