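import Pool.Agent.Lib.Pbbea99T.D5.Data

/-!
# MP_bbea99_co: the certificates
-/

namespace MPbbea99T.D5

open MPbbea99T MPbbea99S Finset

theorem q0 : ∀ i, i < 26 → ∀ κ, κ < 5 → T.qn i κ 0 = 2048 := by decide +kernel

theorem q1 : ∀ i, i < 26 → ∀ κ, κ < 5 → ∀ t, t < 28 → T.qn i κ (t + 1) + 128 +
    2 * T.w t * T.omn i ((κ + t) % 5) = T.qn i κ t + T.omn i ((κ + t) % 5) +
      256 * T.w t := by decide +kernel

theorem hq : ∀ i, i < T.I → ∀ κ, κ < T.n → ∀ t, t ≤ T.M →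
    T.q i κ t = QS T.w (fun x => T.om i (x % T.n)) κ t := T.q_eq q0 q1

theorem hN : ∀ i, i < 26 → 0 < S.nn i := by decide +kernel

theorem hfi : ∀ i, i < 26 → ∀ f, f < S.J → S.fi i f < 26 := by decide +kernel

theorem hom : ∀ i, i < 26 → ∀ κ, κ < 5 →
    S.nn i * T.omn i κ + sumN (fun f => S.an i f) S.J * 2048 =
      sumN (fun f => S.an i f * T.qn (S.fi i f) ((T.M * κ + S.fj i f) % T.n) T.M) S.J +
        S.nn i * 128 := by decide +kernel

theorem hmu : ∀ i, i < 26 →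
    S.nn i * T.mun i + sumN (fun f => S.an i f) S.J * (T.M * 128) =
      sumN (fun f => S.an i f * (T.M * T.mun (S.fi i f))) S.J + S.nn i * 128 := by decide +kernel

theorem hU : ∀ i, i < 26 → Tc.chkU T S i = true := by decide +kernel

theorem cert : Cert T.n T.M T.w T.I T.om T.mu T.U T.q S.J S.N S.al S.fi S.fj :=
  Tc.mkCert T S (by decide +kernel) hq hN hfi hom hmu hU

theorem r0' : ∀ i, i < 26 → ∀ s, s < 2 → ∀ κ, κ < 5 → S.rn T.n i s κ 0 = 8192 := by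
  decide +kernel

theorem r1' : ∀ i, i < 26 → ∀ s, s < 2 → ∀ κ, κ < 5 → ∀ r, r < 95 →
    S.rn T.n i s κ (r + 1) + 128 = S.rn T.n i s κ r + T.omn i ((S.X s r + κ) % T.n) := by
  decide +kernel

theorem r2' : ∀ i, i < 26 → ∀ κ, κ < 5 →
    S.rn T.n i 0 κ S.m + S.d * 128 = 8192 + S.d * T.omn i κ := by decide +kernel

theorem r3' : ∀ i, i < 26 → ∀ κ, κ < 5 →
    S.rn T.n i 1 κ S.m + S.d * T.omn i κ = 8192 + S.d * 128 := by decide +kernel

theorem hOU : ∀ i, i < 26 → Tc.chkOU T S i = true := by decide +kernel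

theorem ocert : OCert Q.n Q.m S.X T.I T.om T.mu T.U (S.R T.n) S.d :=
  Tc.mkOCert T S (by decide +kernel) (by decide +kernel) r0' r1' r2' r3' hOU

end MPbbea99T.D5
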