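import Pool.Agent.Lib.Pbbea99T.D5.Data

/-!
# MP_bbea99_co: the tables of maxima
-/

namespace MPbbea99T.D5

open MPbbea99T MPbbea99S

theorem tx00 : ∀ κ, κ < 5 → nthL P.xT ((2 * 0 + 0) * 5 + κ) =
    pkR 20 (T.xB 0 0 κ) (26 * 5) := by decide +kernel

theorem tx01 : ∀ κ, κ < 5 → nthL P.xT ((2 * 0 + 1) * 5 + κ) =
    pkR 20 (T.xB 0 1 κ) (26 * 5) := by decide +kernel

theorem tx10 : ∀ κ, κ < 5 → nthL P.xT ((2 * 1 + 0) * 5 + κ) =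
    pkR 20 (T.xB 1 0 κ) (26 * 5) := by decide +kernel

theorem tx11 : ∀ κ, κ < 5 → nthL P.xT ((2 * 1 + 1) * 5 + κ) =
    pkR 20 (T.xB 1 1 κ) (26 * 5) := by decide +kernel

end MPbbea99T.D5
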