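import Pool.Agent.Lib.Pbbea99T.D5.Tab
import Pool.Agent.Lib.Pbbea99T.D5.Tab2

/-!
# MP_bbea99_co: the facts about the data
-/

namespace MPbbea99T.D5

open MPbbea99T MPbbea99S Finset

theorem hHI : P.HI = pkR 20 (fun _ => 2 ^ (20 - 1)) (26 * 5) := by decide +kernel

theorem hG : ∀ ro, ro < 2 → ∀ s, s < 2 → ∀ κ, κ < T.n → nthL P.gT ((2 * ro + s) * T.n + κ) =
    pkR P.WL (fun t => pkR 20 (T.gB ro s κ t) (T.I * T.n)) T.M := by
  intro ro hro s hs
  interval_cases ro <;> interval_cases s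
  · exact tg00
  · exact tg01
  · exact tg10
  · exact tg11

theorem hX : ∀ ro, ro < 2 → ∀ s, s < 2 → ∀ κ, κ < T.n → nthL P.xT ((2 * ro + s) * T.n + κ) =
    pkR 20 (T.xB ro s κ) (T.I * T.n) := by
  intro ro hro s hs
  interval_cases ro <;> interval_cases s
  · exact tx00
  · exact tx01
  · exact tx10
  · exact tx11

theorem hU3 : ∀ d, d < 3 → nthL P.uT d = pkR 20 (T.uB d) (T.I * T.n) := by decide +kernel

theorem hUM : P.uM = pkR 20 T.uX (T.I * T.n) := by decide +kernel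

theorem hL : P.LB = pkR P.WL (fun k => pkR 20 (T.lB k) (T.I * T.n)) T.n := by decide +kernel

theorem hz : ∀ f, f < T.I * T.n →
    sumN (fun j => T.qn (f / T.n) ((T.M * j + f) % T.n) T.M) T.n = T.n * 2048 := by
  decide +kernel

theorem hC : P.CB = pkR 20 T.cB (T.I * T.n) := by decide +kernel

theorem hS : ∀ ro, ro < 2 → ∀ s, s < 2 → ∀ κ, κ < T.n → nthL P.sT ((2 * ro + s) * T.n + κ) =
    pkR P.WS (fun t => pkR 16 (T.gS ro s κ t) T.n) T.M := by decide +kernel

theorem hqc0 : ∀ κ, κ < T.n → T.qcn κ 0 = 128 := by decide +kernel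

theorem hqc1 : ∀ κ, κ < T.n → ∀ t, t < T.M → (T.qcn κ (t + 1) : ℤ) =
    T.qcn κ t + sg (T.w t) * chd ((κ + t) % T.n) := by decide +kernel

theorem hLS : P.LS = pkR P.WS (fun k => pkR 16 (T.lS k) T.n) T.n := by decide +kernel

theorem hzS : ∀ k, k < T.n →
    sumN (fun i => T.qcn ((T.M * i + (T.n - 1) * k) % T.n) T.M) T.n = T.n * 128 := by
  decide +kernel

theorem hCS : P.CS = pkR 16 T.cS T.n := by decide +kernel

theorem hC2 : ∀ k, k < T.n → T.h * sumN (fun j => T.lS j k) T.n ≤ T.C2 := by decide +kernel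

theorem bLs : ∀ j, j < T.n → ∀ k, k < T.n → T.lS j k ≤ 648 := by decide +kernel

theorem chyp : CHyp P 20 T.I T.w T.om T.mu T.U T.q T.qc T.h 16384 T.gB T.xB T.lB T.cB T.uB T.uX T.gS
    T.lS T.cS T.C1 2048 128 (T.n * 2048) (T.n * 4096) T.C1 (4096 + 1023) 256 T.C2 128
    (T.n * 128) 648 T.C2 256 :=
  Tb.mkCHyp T P 20 16384 (by decide +kernel) (by decide +kernel) (by decide +kernel)
    (by decide +kernel) rfl rfl rfl (by decide +kernel) (by decide +kernel) (by norm_num)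
    (by decide +kernel) (by decide +kernel) (by decide +kernel) (by decide +kernel) hHI hG hX hU3
    hUM hL hz hC (by decide +kernel) (by decide +kernel) (by decide +kernel) hS hqc0 hqc1 hLS hzS
    hCS hC2 (by decide +kernel) (by decide +kernel) (by decide +kernel) bLs (by decide +kernel)

theorem oLO : Q.LO = pkR Q.F (Tc.lO Q) Q.n := by decide +kernel

theorem olO : ∀ k, k < Q.n → (Tc.lO Q k : ℤ) = (4194304 : ℕ) + S.d * ∑ j ∈ range (k + 1), phi j := by
  decide +kernel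

theorem oz : ∑ j ∈ range Q.n, phi j = 0 := by decide +kernel

theorem oCO : Q.CO + 4 * sumN (fun k => Tc.lO Q k) Q.n = 134217728 := by decide +kernel

theorem oR : ∀ ro, ro < 2 → ∀ s, s < 2 → ∀ κ, κ < Q.n →
    nthL Q.rT ((2 * ro + s) * Q.n + κ) = pkR Q.F (Tc.rO Q ro s κ) Q.m := by decide +kernel

theorem o0' : ∀ ro, ro < 2 → ∀ s, s < 2 → ∀ κ, κ < Q.n → Tc.rO Q ro s κ 0 = 33554432 := by
  decide +kernel

theorem o1' : ∀ ro, ro < 2 → ∀ s, s < 2 → ∀ κ, κ < Q.n → ∀ r, r < Q.m - 1 →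
    (Tc.rO Q ro s κ (r + 1) : ℤ) = Tc.rO Q ro s κ r + sg ro * phi ((S.X s r + κ) % Q.n) := by
  decide +kernel

theorem o2' : ∀ s, s < 2 → ∀ κ, κ < Q.n → (Tc.rO Q 0 s κ (Q.m - 1) : ℤ) - (33554432 : ℕ) +
    phi ((S.X s (Q.m - 1) + κ) % Q.n) = sg s * (S.d * phi κ) := by decide +kernel

theorem oBR : ∀ ro, ro < 2 → ∀ s, s < 2 → ∀ κ, κ < Q.n → ∀ r, r < Q.m →
    Tc.rO Q ro s κ r ≤ 36999819 := by decide +kernel

theorem ohyp : OHyp Q S.X phi S.d T.h 16384 (Tc.lO Q) (Tc.rO Q) 4194304 134217728 33554432 36999819 :=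
  Tc.mkOHyp S Q phi 16384 T.h 4194304 134217728 33554432 36999819 (by decide +kernel) (by decide +kernel)
    (by decide +kernel) (by decide +kernel) (by decide +kernel) rfl (by decide +kernel) oLO olO oz
    oCO oR o0' o1' o2' oBR (by decide +kernel) (by decide +kernel) (by decide +kernel)
    (by decide +kernel) (by decide +kernel) (by decide +kernel)

end MPbbea99T.D5
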