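import Pool.Agent.Lib.Pbbea99T.Split
import Pool.Agent.Lib.Pbbea99T.D5.Data

/-!
# MP_bbea99_co: windows over the templates
-/

namespace MPbbea99T.D5

open MPbbea99T

theorem to1_0 : allL (chkO Q) (t1.take 5) = true := by decide +kernel

theorem to1_1 : allL (chkO Q) ((t1.drop 5).take 5) = true := by decide +kernel

theorem to1_2 : allL (chkO Q) (((t1.drop 5).drop 5).take 5) = true := by
  decide +kernel

theorem to1_3 : allL (chkO Q) (((t1.drop 5).drop 5).drop 5) = true := by
  decide +kernel

theorem to1 : allL (chkO Q) t1 = true :=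
  allL_four 5 to1_0 to1_1 to1_2 to1_3

end MPbbea99T.D5
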