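import Pool.Agent.Lib.Pbbea99T.Split
import Pool.Agent.Lib.Pbbea99T.D5.Data

/-!
# MP_bbea99_co: windows over the templates
-/

namespace MPbbea99T.D5

open MPbbea99T

theorem to15_0 : allL (chkO Q) (t15.take 5) = true := by decide +kernel

theorem to15_1 : allL (chkO Q) ((t15.drop 5).take 5) = true := by decide +kernel

theorem to15_2 : allL (chkO Q) (((t15.drop 5).drop 5).take 5) = true := by
  decide +kernel

theorem to15_3 : allL (chkO Q) (((t15.drop 5).drop 5).drop 5) = true := by
  decide +kernel

theorem to15 : allL (chkO Q) t15 = true :=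
  allL_four 5 to15_0 to15_1 to15_2 to15_3

end MPbbea99T.D5
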